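import Mathlib

/-! Small neighbourhoods, separated sets, maximal independent families, translation equivalence
of subsets of a topological group. -/

set_option autoImplicit false

universe u

open scoped Pointwise Topology Cardinal

namespace Pool.Agent.FBalancedU

/-- `D` is `V`-separated. -/
def Sep {G : Type u} [Group G] (V D : Set G) : Prop :=
  ∀ d ∈ D, ∀ d' ∈ D, d⁻¹ * d' ∈ V → d = d'

/-- `E` and `E'` are translates of each other up to `U`. -/
def Eqv {G : Type u} [Group G] (U E E' : Set G) : Prop :=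
  ∃ h : G, (∀ e ∈ E, ∃ e' ∈ E', e'⁻¹ * (h * e) ∈ U) ∧
    (∀ e' ∈ E', ∃ e ∈ E, e⁻¹ * (h⁻¹ * e') ∈ U)

theorem Eqv.symm {G : Type u} [Group G] {U E E' : Set G} (h : Eqv U E E') : Eqv U E' E := by
  obtain ⟨g, h1, h2⟩ := h
  refine ⟨g⁻¹, h2, ?_⟩
  simpa using h1

theorem Eqv.refl {G : Type u} [Group G] {U : Set G} (hU : (1 : G) ∈ U) (E : Set G) : Eqv U E E := by
  refine ⟨1, fun e he => ⟨e, he, by simpa using hU⟩, fun e he => ⟨e, he, by simpa using hU⟩⟩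

theorem exists_max_indep {α : Type u} (R : α → α → Prop) (hs : ∀ a b, R a b → R b a)
    (hr : ∀ a, R a a) (S : Set α) :
    ∃ I ⊆ S, (∀ a ∈ I, ∀ b ∈ I, R a b → a = b) ∧ ∀ s ∈ S, ∃ a ∈ I, R a s := by
  obtain ⟨I, hI⟩ := zorn_subset {I : Set α | I ⊆ S ∧ ∀ a ∈ I, ∀ b ∈ I, R a b → a = b} (by
    intro c hc hchain
    refine ⟨⋃₀ c, ⟨?_, ?_⟩, fun s hs => Set.subset_sUnion_of_mem hs⟩
    · exact Set.sUnion_subset fun t ht => (hc ht).1
    · rintro a ⟨t, ht, hat⟩ b ⟨t', ht', hbt'⟩ hab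
      rcases hchain.total ht ht' with h | h
      · exact (hc ht').2 a (h hat) b hbt' hab
      · exact (hc ht).2 a hat b (h hbt') hab)
  refine ⟨I, hI.prop.1, hI.prop.2, fun s hsS => ?_⟩
  by_contra hcon
  push Not at hcon
  have hsI : s ∉ I := fun h => hcon s h (hr s)
  have hins : insert s I ∈ {I : Set α | I ⊆ S ∧ ∀ a ∈ I, ∀ b ∈ I, R a b → a = b} := by
    refine ⟨Set.insert_subset hsS hI.prop.1, ?_⟩
    rintro a (rfl | ha) b (rfl | hb) hab
    · rfl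
    · exact absurd (hs _ _ hab) (hcon b hb)
    · exact absurd hab (hcon a ha)
    · exact hI.prop.2 a ha b hb hab
  exact hsI (hI.le_of_ge hins (Set.subset_insert s I) (Set.mem_insert s I))

theorem mul_mem_pow {G : Type u} [Group G] {C : Set G} {a b : G} {m n : ℕ} (ha : a ∈ C ^ m)
    (hb : b ∈ C ^ n) : a * b ∈ C ^ (m + n) := by
  rw [pow_add]; exact Set.mul_mem_mul ha hb

theorem inv_mem_pow {G : Type u} [Group G] {C : Set G} (hC : C⁻¹ = C) {a : G} {m : ℕ}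
    (ha : a ∈ C ^ m) : a⁻¹ ∈ C ^ m := by
  have h : (C ^ m)⁻¹ = C ^ m := by rw [← inv_pow, hC]
  rw [← Set.mem_inv, h]; exact ha

theorem mem_pow_one {G : Type u} [Group G] {C : Set G} {a : G} (ha : a ∈ C) : a ∈ C ^ 1 := by
  rwa [pow_one]

theorem pow_sub_pow {G : Type u} [Group G] {C : Set G} (h1 : (1 : G) ∈ C) {m n : ℕ} (h : m ≤ n) :
    C ^ m ⊆ C ^ n := Set.pow_subset_pow_right h1 h

variable {G : Type u} [Group G] [TopologicalSpace G] [IsTopologicalGroup G]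

theorem inv_mem_nhds {V : Set G} (hV : V ∈ 𝓝 (1 : G)) : V⁻¹ ∈ 𝓝 (1 : G) :=
  inv_mem_nhds_one G hV

theorem exists_small (U : Set G) (hU : U ∈ 𝓝 (1 : G)) (n : ℕ) :
    ∃ C ∈ 𝓝 (1 : G), C⁻¹ = C ∧ (1 : G) ∈ C ∧ C ^ n ⊆ U := by
  induction n generalizing U with
  | zero =>
    refine ⟨Set.univ, Filter.univ_mem, by simp, trivial, ?_⟩
    rw [pow_zero]
    intro x hx
    rw [Set.mem_one] at hx
    rw [hx]; exact mem_of_mem_nhds hU
  | succ n ih =>
    obtain ⟨V, hV, hVU⟩ := exists_nhds_one_split hU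
    obtain ⟨C, hC, hCs, hC1, hCV⟩ := ih V hV
    refine ⟨C ∩ (V ∩ V⁻¹), Filter.inter_mem hC (Filter.inter_mem hV (inv_mem_nhds hV)), ?_, ?_, ?_⟩
    · rw [Set.inter_inv, Set.inter_inv, hCs, inv_inv, Set.inter_comm V⁻¹ V]
    · exact ⟨hC1, mem_of_mem_nhds hV, mem_of_mem_nhds (inv_mem_nhds hV)⟩
    · rw [pow_succ]
      rintro x ⟨a, ha, b, hb, rfl⟩
      refine hVU a (hCV ?_) b hb.2.1
      exact Set.pow_subset_pow_left Set.inter_subset_left ha

end Pool.Agent.FBalancedU
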