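import Pool.Agent.FBalancedU.Func

/-! The left and the right uniform structure, and the conditions of the final theorem. -/

set_option autoImplicit false

universe u

open scoped Pointwise Topology Uniformity

namespace Pool.Agent.FBalancedU

variable {G : Type u} [Group G] [TopologicalSpace G] [IsTopologicalGroup G]

theorem leftUC_iff (f : G → ℝ) :
    @UniformContinuous G ℝ (IsTopologicalGroup.leftUniformSpace G) _ f ↔
      ∀ ε > 0, ∃ V ∈ 𝓝 (1 : G), ∀ x, ∀ v ∈ V, |f (x * v) - f x| < ε := by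
  let _ : UniformSpace G := IsTopologicalGroup.leftUniformSpace G
  have hb : (𝓤 G) = Filter.comap (fun p : G × G => p.1⁻¹ * p.2) (𝓝 (1 : G)) := rfl
  constructor
  · intro h ε hε
    have h2 : {p : G × G | dist (f p.1) (f p.2) < ε} ∈ 𝓤 G := h (Metric.dist_mem_uniformity hε)
    rw [hb, Filter.mem_comap] at h2
    obtain ⟨V, hV, h3⟩ := h2
    refine ⟨V, hV, fun x v hv => ?_⟩
    have h4 := @h3 (x, x * v) (by show x⁻¹ * (x * v) ∈ V; rwa [inv_mul_cancel_left])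
    rw [abs_sub_comm]
    exact h4
  · intro h s hs
    obtain ⟨ε, hε, h1⟩ := Metric.mem_uniformity_dist.1 hs
    obtain ⟨V, hV, h2⟩ := h ε hε
    rw [Filter.mem_map, hb, Filter.mem_comap]
    refine ⟨V, hV, ?_⟩
    rintro ⟨x, y⟩ hxy
    apply h1
    have h3 := h2 x (x⁻¹ * y) hxy
    rw [mul_inv_cancel_left, abs_sub_comm] at h3
    exact h3

theorem rightUC_iff (f : G → ℝ) :
    @UniformContinuous G ℝ (IsTopologicalGroup.rightUniformSpace G) _ f ↔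
      ∀ ε > 0, ∃ V ∈ 𝓝 (1 : G), ∀ x, ∀ v ∈ V, |f (v * x) - f x| < ε := by
  let _ : UniformSpace G := IsTopologicalGroup.rightUniformSpace G
  have hb : (𝓤 G) = Filter.comap (fun p : G × G => p.2 * p.1⁻¹) (𝓝 (1 : G)) := rfl
  constructor
  · intro h ε hε
    have h2 : {p : G × G | dist (f p.1) (f p.2) < ε} ∈ 𝓤 G := h (Metric.dist_mem_uniformity hε)
    rw [hb, Filter.mem_comap] at h2
    obtain ⟨V, hV, h3⟩ := h2
    refine ⟨V, hV, fun x v hv => ?_⟩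
    have h4 := @h3 (x, v * x) (by show v * x * x⁻¹ ∈ V; rwa [mul_inv_cancel_right])
    rw [abs_sub_comm]
    exact h4
  · intro h s hs
    obtain ⟨ε, hε, h1⟩ := Metric.mem_uniformity_dist.1 hs
    obtain ⟨V, hV, h2⟩ := h ε hε
    rw [Filter.mem_map, hb, Filter.mem_comap]
    refine ⟨V, hV, ?_⟩
    rintro ⟨x, y⟩ hxy
    apply h1
    have h3 := h2 x (y * x⁻¹) hxy
    rw [inv_mul_cancel_right, abs_sub_comm] at h3
    exact h3

/-- In a balanced group every left uniformly continuous function is right uniformly continuous. -/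
theorem rightUC_of_balanced
    (hB : ∀ U ∈ 𝓝 (1 : G), ∃ V ∈ 𝓝 (1 : G), V ⊆ U ∧ ∀ g : G, ∀ x ∈ V, g * x * g⁻¹ ∈ V)
    (f : G → ℝ) (hf : @UniformContinuous G ℝ (IsTopologicalGroup.leftUniformSpace G) _ f) :
    @UniformContinuous G ℝ (IsTopologicalGroup.rightUniformSpace G) _ f := by
  rw [leftUC_iff] at hf
  rw [rightUC_iff]
  intro ε hε
  obtain ⟨U, hU, h1⟩ := hf ε hε
  obtain ⟨V, hV, hVU, h2⟩ := hB U hU
  refine ⟨V, hV, fun x v hv => ?_⟩
  have h3 := h1 x (x⁻¹ * v * x) (hVU (by simpa using h2 x⁻¹ v hv))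
  have h4 : x * (x⁻¹ * v * x) = v * x := by group
  rwa [h4] at h3

omit [IsTopologicalGroup G] in
/-- A balanced group is F-balanced. -/
theorem fbalanced_of_balanced
    (hB : ∀ U ∈ 𝓝 (1 : G), ∃ V ∈ 𝓝 (1 : G), V ⊆ U ∧ ∀ g : G, ∀ x ∈ V, g * x * g⁻¹ ∈ V)
    (X : Set G) (U : Set G) (hU : U ∈ 𝓝 (1 : G)) : ∃ V ∈ 𝓝 (1 : G), V * X ⊆ X * U := by
  obtain ⟨V, hV, hVU, h2⟩ := hB U hU
  refine ⟨V, hV, ?_⟩
  rintro _ ⟨v, hv, x, hx, rfl⟩
  refine ⟨x, hx, x⁻¹ * v * x, hVU (by simpa using h2 x⁻¹ v hv), ?_⟩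
  show x * (x⁻¹ * v * x) = v * x
  group

/-- In a balanced group the two uniform structures coincide. -/
theorem uniform_eq_of_balanced
    (hB : ∀ U ∈ 𝓝 (1 : G), ∃ V ∈ 𝓝 (1 : G), V ⊆ U ∧ ∀ g : G, ∀ x ∈ V, g * x * g⁻¹ ∈ V) :
    IsTopologicalGroup.leftUniformSpace G = IsTopologicalGroup.rightUniformSpace G := by
  ext s
  show s ∈ Filter.comap (fun p : G × G => p.1⁻¹ * p.2) (𝓝 (1 : G)) ↔
    s ∈ Filter.comap (fun p : G × G => p.2 * p.1⁻¹) (𝓝 (1 : G))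
  rw [Filter.mem_comap, Filter.mem_comap]
  constructor
  · rintro ⟨U, hU, h1⟩
    obtain ⟨V, hV, hVU, h2⟩ := hB U hU
    refine ⟨V, hV, ?_⟩
    rintro ⟨x, y⟩ hxy
    apply h1
    show x⁻¹ * y ∈ U
    have h3 := hVU (h2 x⁻¹ (y * x⁻¹) hxy)
    have h4 : x⁻¹ * (y * x⁻¹) * x⁻¹⁻¹ = x⁻¹ * y := by group
    rwa [h4] at h3
  · rintro ⟨U, hU, h1⟩
    obtain ⟨V, hV, hVU, h2⟩ := hB U hU
    refine ⟨V, hV, ?_⟩
    rintro ⟨x, y⟩ hxy
    apply h1
    show y * x⁻¹ ∈ U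
    have h3 := hVU (h2 x (x⁻¹ * y) hxy)
    have h4 : x * (x⁻¹ * y) * x⁻¹ = y * x⁻¹ := by group
    rwa [h4] at h3

/-- If every bounded left uniformly continuous real function is right uniformly continuous, then
the group is balanced. -/
theorem balanced_of_functionally
    (h : ∀ f : G → ℝ, (∃ C, ∀ x, |f x| ≤ C) →
      @UniformContinuous G ℝ (IsTopologicalGroup.leftUniformSpace G) _ f →
      @UniformContinuous G ℝ (IsTopologicalGroup.rightUniformSpace G) _ f) :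
    ∀ U ∈ 𝓝 (1 : G), ∃ V ∈ 𝓝 (1 : G), V ⊆ U ∧ ∀ g : G, ∀ x ∈ V, g * x * g⁻¹ ∈ V := by
  intro U hU
  obtain ⟨V, h1, h2, h3⟩ := balanced_of_fbalanced G (fun X U hU =>
    fbalanced_of_functionally (fun f hb hl => (rightUC_iff f).1 (h f hb ((leftUC_iff f).2 hl)))
      X U hU) U hU
  exact ⟨V, h1, h2, fun g x hx => h3 g x hx⟩

end Pool.Agent.FBalancedU
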