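import Pool.Agent.FBalancedU.Main

/-! Functionally balanced groups, and the condition for uniformly discrete sets only. -/

set_option autoImplicit false

universe u

open scoped Pointwise Topology Uniformity

namespace Pool.Agent.FBalancedU

variable {G : Type u} [Group G] [TopologicalSpace G] [IsTopologicalGroup G]

/-- The sets `E n = {(x, y) | x⁻¹ * y ∈ S n}`. -/
def ent (S : ℕ → Set G) (n : ℕ) : Set (G × G) := {p | p.1⁻¹ * p.2 ∈ S n}

/-- The filter basis of the sets `ent S n`. -/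
def entBasis (S : ℕ → Set G) (h : ∀ n, S (n + 1) ⊆ S n) : FilterBasis (G × G) where
  sets := Set.range (ent S)
  nonempty := ⟨_, 0, rfl⟩
  inter_sets := by
    have hanti : ∀ m n, m ≤ n → ent S n ⊆ ent S m := by
      intro m n hmn
      induction n, hmn using Nat.le_induction with
      | base => exact subset_rfl
      | succ n _ ih => exact fun p hp => ih (h n hp)
    rintro _ _ ⟨m, rfl⟩ ⟨n, rfl⟩
    exact ⟨_, ⟨max m n, rfl⟩, fun p hp =>
      ⟨hanti m _ (le_max_left m n) hp, hanti n _ (le_max_right m n) hp⟩⟩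

/-- Below every identity neighbourhood there is a left uniformly continuous pseudometric. -/
theorem exists_pseudo (U : Set G) (hU : U ∈ 𝓝 (1 : G)) :
    ∃ d : PseudoMetricSpace G, (∃ δ > 0, ∀ x y : G, @dist G d.toDist x y < δ → x⁻¹ * y ∈ U) ∧
      ∀ ε > 0, ∃ V ∈ 𝓝 (1 : G), ∀ x : G, ∀ v ∈ V, @dist G d.toDist x (x * v) < ε := by
  have step : ∀ V : Set G, ∃ W : Set G, V ∈ 𝓝 (1 : G) →
      W ∈ 𝓝 (1 : G) ∧ W⁻¹ = W ∧ (1 : G) ∈ W ∧ W ^ 2 ⊆ V := by
    intro V
    by_cases hV : V ∈ 𝓝 (1 : G)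
    · obtain ⟨C, h1, h2, h3, h4⟩ := exists_small V hV 2
      exact ⟨C, fun _ => ⟨h1, h2, h3, h4⟩⟩
    · exact ⟨V, fun h => absurd h hV⟩
  choose s hs using step
  let S : ℕ → Set G := fun n => Nat.rec (s U) (fun _ V => s V) n
  have hS0 : S 0 = s U := rfl
  have hSs : ∀ n, S (n + 1) = s (S n) := fun n => rfl
  have hn : ∀ n, S n ∈ 𝓝 (1 : G) := by
    intro n
    induction n with
    | zero => exact (hs U hU).1
    | succ n ih => rw [hSs]; exact (hs _ ih).1
  have hinv : ∀ n, (S n)⁻¹ = S n := by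
    intro n
    cases n with
    | zero => exact (hs U hU).2.1
    | succ n => rw [hSs]; exact (hs _ (hn n)).2.1
  have h1 : ∀ n, (1 : G) ∈ S n := fun n => mem_of_mem_nhds (hn n)
  have hsq : ∀ n, ∀ a ∈ S (n + 1), ∀ b ∈ S (n + 1), a * b ∈ S n := by
    intro n a ha b hb
    rw [hSs] at ha hb
    apply (hs _ (hn n)).2.2.2
    rw [pow_two]
    exact Set.mul_mem_mul ha hb
  have hmono : ∀ n, S (n + 1) ⊆ S n := by
    intro n a ha
    have := hsq n a ha 1 (h1 (n + 1))
    rwa [mul_one] at this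
  have hU0 : S 0 ⊆ U := by
    intro a ha
    rw [hS0] at ha
    apply (hs U hU).2.2.2
    rw [pow_two]
    exact ⟨a, ha, 1, h1 0, mul_one a⟩
  let B : FilterBasis (G × G) := entBasis S hmono
  let C : UniformSpace.Core G := UniformSpace.Core.mkOfBasis B
    (by
      rintro _ ⟨n, rfl⟩ x
      show x⁻¹ * x ∈ S n
      rw [inv_mul_cancel]
      exact h1 n)
    (by
      rintro _ ⟨n, rfl⟩
      refine ⟨_, ⟨n, rfl⟩, ?_⟩
      rintro ⟨x, y⟩ hxy
      show y⁻¹ * x ∈ S n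
      have h2 : (x⁻¹ * y)⁻¹ ∈ (S n)⁻¹ := Set.inv_mem_inv.2 hxy
      rw [hinv n, mul_inv_rev, inv_inv] at h2
      exact h2)
    (by
      rintro _ ⟨n, rfl⟩
      refine ⟨_, ⟨n + 1, rfl⟩, ?_⟩
      rintro ⟨x, z⟩ ⟨y, hxy, hyz⟩
      show x⁻¹ * z ∈ S n
      have h2 := hsq n _ hxy _ hyz
      have h3 : x⁻¹ * y * (y⁻¹ * z) = x⁻¹ * z := by group
      rw [← h3]
      exact h2)
  let u : UniformSpace G := UniformSpace.ofCore C
  have hbasis : (@uniformity G u).HasBasis (fun E => E ∈ B) id := B.hasBasis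
  have hcg : (@uniformity G u).IsCountablyGenerated := by
    refine Filter.HasCountableBasis.isCountablyGenerated ⟨hbasis, ?_⟩
    exact Set.countable_range (ent S)
  let d : PseudoMetricSpace G := @UniformSpace.pseudoMetricSpace G u hcg
  have hd : d.toUniformSpace = u := rfl
  refine ⟨d, ?_, ?_⟩
  · have h2 : ent S 0 ∈ @uniformity G d.toUniformSpace := by
      rw [hd]
      exact hbasis.mem_of_mem ⟨0, rfl⟩
    obtain ⟨δ, hδ, h3⟩ := Metric.mem_uniformity_dist.1 h2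
    exact ⟨δ, hδ, fun x y hxy => hU0 (h3 hxy)⟩
  · intro ε hε
    have h2 : {p : G × G | @dist G d.toDist p.1 p.2 < ε} ∈ @uniformity G d.toUniformSpace :=
      Metric.dist_mem_uniformity hε
    rw [hd] at h2
    obtain ⟨_, ⟨n, rfl⟩, h3⟩ := hbasis.mem_iff.1 h2
    refine ⟨S n, hn n, fun x v hv => ?_⟩
    have h4 : ((x, x * v) : G × G) ∈ ent S n := by
      show x⁻¹ * (x * v) ∈ S n
      rwa [inv_mul_cancel_left]
    exact h3 h4

/-- If every bounded left uniformly continuous function is right uniformly continuous, then the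
group is F-balanced. -/
theorem fbalanced_of_functionally
    (hf : ∀ f : G → ℝ, (∃ C, ∀ x, |f x| ≤ C) →
      (∀ ε > 0, ∃ V ∈ 𝓝 (1 : G), ∀ x, ∀ v ∈ V, |f (x * v) - f x| < ε) →
      ∀ ε > 0, ∃ V ∈ 𝓝 (1 : G), ∀ x, ∀ v ∈ V, |f (v * x) - f x| < ε)
    (X : Set G) (U : Set G) (hU : U ∈ 𝓝 (1 : G)) : ∃ V ∈ 𝓝 (1 : G), V * X ⊆ X * U := by
  rcases X.eq_empty_or_nonempty with rfl | hX
  · exact ⟨Set.univ, Filter.univ_mem, by simp⟩
  obtain ⟨d, ⟨δ, hδ, h1⟩, h2⟩ := exists_pseudo U hU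
  let f : G → ℝ := fun x => min 1 (@Metric.infDist G d x X)
  have hnn : ∀ x, 0 ≤ @Metric.infDist G d x X := fun x => @Metric.infDist_nonneg G d X x
  have hb : ∀ x, |f x| ≤ 1 := by
    intro x
    rw [abs_of_nonneg (le_min zero_le_one (hnn x))]
    exact min_le_left _ _
  have hlip : ∀ x y, |f y - f x| ≤ @dist G d.toDist x y := by
    intro x y
    have h3 : |f y - f x| ≤ |@Metric.infDist G d y X - @Metric.infDist G d x X| := by
      have := abs_min_sub_min_le_max (1 : ℝ) (@Metric.infDist G d y X) 1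
        (@Metric.infDist G d x X)
      refine this.trans ?_
      rw [sub_self, abs_zero]
      exact (max_eq_right (abs_nonneg _)).le
    refine h3.trans ?_
    rw [abs_sub_le_iff]
    constructor
    · have := @Metric.infDist_le_infDist_add_dist G d X y x
      have h4 := @dist_comm G d x y
      linarith
    · have := @Metric.infDist_le_infDist_add_dist G d X x y
      linarith
  obtain ⟨V, hV, h3⟩ := hf f ⟨1, hb⟩ (fun ε hε => by
    obtain ⟨V, hV, h3⟩ := h2 ε hε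
    exact ⟨V, hV, fun x v hv => (hlip x (x * v)).trans_lt (h3 x v hv)⟩) (min δ 1)
    (lt_min hδ one_pos)
  refine ⟨V, hV, ?_⟩
  rintro _ ⟨v, hv, x, hx, rfl⟩
  have hx0 : f x = 0 := by
    have : @Metric.infDist G d x X = 0 := @Metric.infDist_zero_of_mem G d X x hx
    show min 1 (@Metric.infDist G d x X) = 0
    rw [this]
    exact min_eq_right zero_le_one
  have h4 : f (v * x) < min δ 1 := by
    have := h3 x v hv
    rw [hx0, sub_zero] at this
    exact (le_abs_self _).trans_lt this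
  have h5 : @Metric.infDist G d (v * x) X < δ := by
    by_contra hcon
    rw [not_lt] at hcon
    have : min δ 1 ≤ f (v * x) := by
      show min δ 1 ≤ min 1 (@Metric.infDist G d (v * x) X)
      rw [min_comm δ 1]
      exact min_le_min_left 1 hcon
    exact absurd h4 (not_lt.2 this)
  obtain ⟨y, hy, h6⟩ := (@Metric.infDist_lt_iff G d X (v * x) δ hX).1 h5
  rw [@dist_comm G d] at h6
  refine ⟨y, hy, y⁻¹ * (v * x), h1 _ _ h6, ?_⟩
  exact mul_inv_cancel_left y (v * x)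

/-- It is enough to know the condition for the uniformly discrete sets. -/
theorem fbalanced_of_discrete
    (hd : ∀ X : Set G, (∃ W ∈ 𝓝 (1 : G), ∀ x ∈ X, ∀ y ∈ X, x⁻¹ * y ∈ W → x = y) →
      ∀ U ∈ 𝓝 (1 : G), ∃ V ∈ 𝓝 (1 : G), V * X ⊆ X * U)
    (X : Set G) (U : Set G) (hU : U ∈ 𝓝 (1 : G)) : ∃ V ∈ 𝓝 (1 : G), V * X ⊆ X * U := by
  obtain ⟨W, hW, hWi, hW1, hWU⟩ := exists_small U hU 2
  obtain ⟨Y, hYX, hY1, hY2⟩ := exists_max_indep (fun x y : G => x⁻¹ * y ∈ W)
    (fun a b hab => by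
      have h2 : (a⁻¹ * b)⁻¹ ∈ W⁻¹ := Set.inv_mem_inv.2 hab
      rw [hWi, mul_inv_rev, inv_inv] at h2
      exact h2) (fun a => by rw [inv_mul_cancel]; exact hW1) X
  obtain ⟨V, hV, h1⟩ := hd Y ⟨W, hW, fun x hx y hy => hY1 x hx y hy⟩ W hW
  refine ⟨V, hV, ?_⟩
  rintro _ ⟨v, hv, x, hx, rfl⟩
  obtain ⟨y, hy, hyx⟩ := hY2 x hx
  obtain ⟨z, hz, w, hw, hzw⟩ := h1 (Set.mul_mem_mul hv hy)
  refine ⟨z, hYX hz, w * (y⁻¹ * x), hWU ?_, ?_⟩
  · rw [pow_two]
    exact Set.mul_mem_mul hw hyx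
  · show z * (w * (y⁻¹ * x)) = v * x
    have hzw' : z * w = v * y := hzw
    rw [← mul_assoc, hzw']
    group

end Pool.Agent.FBalancedU
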