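import Pool.Agent.FBalancedU.Basic

/-! Existence of many subsets of a small neighbourhood which are not translates of each other
up to a fixed neighbourhood. -/

set_option autoImplicit false

universe u

open scoped Pointwise Topology Cardinal

namespace Pool.Agent.FBalancedU

variable {G : Type u} [Group G] [TopologicalSpace G] [IsTopologicalGroup G]

/-- A union of few sets of size below `2 ^ κ` has size below `2 ^ κ`. -/
theorem exists_large_fiber {α : Type u} {κ : Cardinal.{u}} (hκ : ℵ₀ ≤ κ) (S : Set α) (I : Set α)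
    (R : α → α → Prop) (hcov : ∀ s ∈ S, ∃ a ∈ I, R a s) (hI : #I ≤ κ)
    (hS : 2 ^ κ ≤ #S) : ∃ a ∈ I, 2 ^ κ ≤ #{s | s ∈ S ∧ R a s} := by
  by_contra hcon
  push Not at hcon
  have h1 : S ⊆ ⋃ a : I, {s | s ∈ S ∧ R a s} := by
    intro s hs
    obtain ⟨a, ha, has⟩ := hcov s hs
    exact Set.mem_iUnion.2 ⟨⟨a, ha⟩, hs, has⟩
  have h2 : #S ≤ Cardinal.sum fun a : I => #{s | s ∈ S ∧ R a s} :=
    (Cardinal.mk_le_mk_of_subset h1).trans Cardinal.mk_iUnion_le_sum_mk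
  have h3 : (Cardinal.sum fun a : I => #{s | s ∈ S ∧ R a s}) < Cardinal.prod fun _ : I => 2 ^ κ :=
    Cardinal.sum_lt_prod _ _ fun a => hcon a.1 a.2
  have h4 : (Cardinal.prod fun _ : I => (2 : Cardinal.{u}) ^ κ) ≤ 2 ^ κ := by
    rw [Cardinal.prod_const']
    rw [← Cardinal.power_mul]
    refine Cardinal.power_le_power_left two_ne_zero ?_
    calc κ * #I ≤ κ * κ := by gcongr
      _ = κ := Cardinal.mul_eq_self hκ
  exact absurd (hS.trans h2) (not_le.2 (h3.trans_le h4))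

theorem mk_nonempty_subsets {α : Type u} {κ : Cardinal.{u}} (hκ : ℵ₀ ≤ κ) (D : Set α) (hD : κ ≤ #D) :
    2 ^ κ ≤ #{A : Set α | A ⊆ D ∧ A.Nonempty} := by
  have h1 : 𝒫 D ⊆ insert ∅ {A : Set α | A ⊆ D ∧ A.Nonempty} := by
    intro A hA
    rcases A.eq_empty_or_nonempty with h | h
    · exact Or.inl h
    · exact Or.inr ⟨hA, h⟩
  have h2 : 2 ^ #D ≤ #{A : Set α | A ⊆ D ∧ A.Nonempty} + 1 := by
    rw [← Cardinal.mk_powerset]
    exact (Cardinal.mk_le_mk_of_subset h1).trans Cardinal.mk_insert_le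
  have h3 : ℵ₀ ≤ 2 ^ #D := (hκ.trans hD).trans (Cardinal.cantor _).le
  have h4 : 2 ^ κ ≤ (2 : Cardinal.{u}) ^ #D := Cardinal.power_le_power_left two_ne_zero hD
  refine h4.trans ?_
  by_contra hcon
  rw [not_le] at hcon
  have := Cardinal.add_lt_of_lt h3 hcon (Cardinal.one_lt_aleph0.trans_le h3)
  exact absurd h2 (not_le.2 this)

theorem markers (hF : ∀ X : Set G, ∀ U ∈ 𝓝 (1 : G), ∃ V ∈ 𝓝 (1 : G), V * X ⊆ X * U)
    {C V D : Set G} (hC : C ∈ 𝓝 (1 : G)) (hCs : C⁻¹ = C) (hV : V ∈ 𝓝 (1 : G)) (hDC : D ⊆ C)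
    (hsep : Sep V D) (hinf : ℵ₀ ≤ #D) :
    ∃ U' ∈ 𝓝 (1 : G), U' ⊆ C ∧ ∃ F : Set (Set G), (∀ E ∈ F, E.Nonempty ∧ E ⊆ C ^ 3) ∧
      (∀ E ∈ F, ∀ E' ∈ F, Eqv U' E E' → E = E') ∧ #D ≤ #F := by
  have hC1 : (1 : G) ∈ C := mem_of_mem_nhds hC
  obtain ⟨U, hU, hUs, hU1, hUV⟩ := exists_small (V ∩ C) (Filter.inter_mem hV hC) 6
  have hUC : U ⊆ C := by
    intro x hx
    have : x ∈ U ^ 6 := pow_sub_pow hU1 (by norm_num : 1 ≤ 6) (mem_pow_one hx)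
    exact (hUV this).2
  have hU6 : U ^ 6 ⊆ V := fun x hx => (hUV hx).1
  obtain ⟨I, hIS, hI1, hI2⟩ := exists_max_indep (Eqv U) (fun a b => Eqv.symm) (Eqv.refl hU1)
    {A : Set G | A ⊆ D ∧ A.Nonempty}
  by_cases hcase : #D ≤ #I
  · refine ⟨U, hU, hUC, I, fun E hE => ⟨(hIS hE).2, ?_⟩, hI1, hcase⟩
    intro x hx
    exact pow_sub_pow hC1 (by norm_num : 1 ≤ 3) (mem_pow_one (hDC ((hIS hE).1 hx)))
  rw [not_le] at hcase
  obtain ⟨A₁, hA₁I, hA₁⟩ := exists_large_fiber hinf {A : Set G | A ⊆ D ∧ A.Nonempty} I (Eqv U) hI2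
    hcase.le (mk_nonempty_subsets hinf D le_rfl)
  set J : Set (Set G) := {s | s ∈ {A : Set G | A ⊆ D ∧ A.Nonempty} ∧ Eqv U A₁ s} with hJdef
  have hJ : ∀ A ∈ J, ∃ h : G, (∀ e ∈ A₁, ∃ e' ∈ A, e'⁻¹ * (h * e) ∈ U) ∧
    (∀ e' ∈ A, ∃ e ∈ A₁, e⁻¹ * (h⁻¹ * e') ∈ U) := fun A hA => hA.2
  choose! h hh1 hh2 using hJ
  have hA₁D : A₁ ⊆ D := (hIS hA₁I).1
  have hA₁ne : A₁.Nonempty := (hIS hA₁I).2
  -- the translations are small
  have hhC : ∀ A ∈ J, h A ∈ C ^ 3 := by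
    intro A hA
    obtain ⟨e, he⟩ := hA₁ne
    obtain ⟨e', he', hu⟩ := hh1 A hA e he
    have h1 : h A = e' * (e'⁻¹ * (h A * e)) * e⁻¹ := by group
    rw [h1]
    have h2 : e' ∈ C ^ 1 := mem_pow_one (hDC (hA.1.1 he'))
    have h3 : e'⁻¹ * (h A * e) ∈ C ^ 1 := mem_pow_one (hUC hu)
    have h4 : e⁻¹ ∈ C ^ 1 := inv_mem_pow hCs (mem_pow_one (hDC (hA₁D he)))
    exact mul_mem_pow (mul_mem_pow h2 h3) h4
  obtain ⟨V₁, hV₁, hV₁A⟩ := hF A₁ U hU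
  -- the second neighbourhood
  set U' : Set G := V₁ ∩ V₁⁻¹ ∩ U with hU'def
  have hU' : U' ∈ 𝓝 (1 : G) :=
    Filter.inter_mem (Filter.inter_mem hV₁ (inv_mem_nhds hV₁)) hU
  have hU's : ∀ w ∈ U', w⁻¹ ∈ U' := by
    rintro w ⟨⟨h1, h2⟩, h3⟩
    refine ⟨⟨h2, ?_⟩, ?_⟩
    · rw [Set.mem_inv, inv_inv]; exact h1
    · rw [← hUs, Set.mem_inv, inv_inv]; exact h3
  have hU'A : ∀ w ∈ U', ∀ b ∈ A₁, ∃ b' ∈ A₁, ∃ u ∈ U, w * b = b' * u := by
    intro w hw b hb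
    obtain ⟨b', hb', u, hu, hbu⟩ := hV₁A (Set.mul_mem_mul hw.1.1 hb)
    exact ⟨b', hb', u, hu, hbu.symm⟩
  have hUinv : ∀ {u : G} {m : ℕ}, u ∈ U ^ m → u⁻¹ ∈ U ^ m := fun hu => inv_mem_pow hUs hu
  -- the key identity: `j` is determined by `i` and the relation of `g`
  have key : ∀ i ∈ J, ∀ j ∈ J, ∀ g : G, (h j)⁻¹ * (g * h i) ∈ U' →
      j = {a | ∃ s ∈ i, (s, a) ∈ {p : G × G | p.1 ∈ D ∧ p.2 ∈ D ∧ p.2⁻¹ * (g * p.1) ∈ U ^ 3}} := by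
    intro i hi j hj g hw
    set w := (h j)⁻¹ * (g * h i) with hwdef
    have hgh : g * h i = h j * w := by rw [hwdef]; group
    ext a
    constructor
    · intro ha
      obtain ⟨b, hb, hu₁⟩ := hh2 j hj a ha
      obtain ⟨b', hb', u₂, hu₂, hbu⟩ := hU'A w⁻¹ (hU's w hw) b hb
      obtain ⟨s, hs, hu₃⟩ := hh1 i hi b' hb'
      refine ⟨s, hs, hi.1.1 hs, hj.1.1 ha, ?_⟩
      have h1 : a = h j * b * (b⁻¹ * ((h j)⁻¹ * a)) := by group
      have h2 : h j = g * h i * w⁻¹ := by rw [hgh]; group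
      have h3 : h i * b' = s * (s⁻¹ * (h i * b')) := by group
      have h4 : a = g * s * ((s⁻¹ * (h i * b')) * u₂ * (b⁻¹ * ((h j)⁻¹ * a))) := by
        calc a = h j * b * (b⁻¹ * ((h j)⁻¹ * a)) := h1
          _ = g * h i * w⁻¹ * b * (b⁻¹ * ((h j)⁻¹ * a)) := by
            nth_rewrite 1 [h2]; rfl
          _ = g * h i * (w⁻¹ * b) * (b⁻¹ * ((h j)⁻¹ * a)) := by group
          _ = g * h i * (b' * u₂) * (b⁻¹ * ((h j)⁻¹ * a)) := by rw [hbu]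
          _ = g * s * ((s⁻¹ * (h i * b')) * u₂ * (b⁻¹ * ((h j)⁻¹ * a))) := by group
      have h5 : a⁻¹ * (g * s) = ((s⁻¹ * (h i * b')) * u₂ * (b⁻¹ * ((h j)⁻¹ * a)))⁻¹ := by
        rw [eq_inv_iff_mul_eq_one]
        have : a⁻¹ * (g * s) * ((s⁻¹ * (h i * b')) * u₂ * (b⁻¹ * ((h j)⁻¹ * a)))
            = a⁻¹ * (g * s * ((s⁻¹ * (h i * b')) * u₂ * (b⁻¹ * ((h j)⁻¹ * a)))) := by group
        rw [this, ← h4]; group
      show a⁻¹ * (g * s) ∈ U ^ 3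
      rw [h5]
      exact hUinv (mul_mem_pow (mul_mem_pow (mem_pow_one hu₃) (mem_pow_one hu₂)) (mem_pow_one hu₁))
    · rintro ⟨s, hs, hsD, haD, hu⟩
      change a⁻¹ * (g * s) ∈ U ^ 3 at hu
      obtain ⟨b, hb, hu₁⟩ := hh2 i hi s hs
      obtain ⟨b', hb', u₂, hu₂, hbu⟩ := hU'A w hw b hb
      obtain ⟨a', ha', hu₃⟩ := hh1 j hj b' hb'
      have h1 : g * s = a' * ((a'⁻¹ * (h j * b')) * u₂ * (b⁻¹ * ((h i)⁻¹ * s))) := by
        calc g * s = g * h i * b * (b⁻¹ * ((h i)⁻¹ * s)) := by group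
          _ = h j * w * b * (b⁻¹ * ((h i)⁻¹ * s)) := by rw [hgh]
          _ = h j * (w * b) * (b⁻¹ * ((h i)⁻¹ * s)) := by group
          _ = h j * (b' * u₂) * (b⁻¹ * ((h i)⁻¹ * s)) := by rw [hbu]
          _ = a' * ((a'⁻¹ * (h j * b')) * u₂ * (b⁻¹ * ((h i)⁻¹ * s))) := by group
      have h2 : a'⁻¹ * a = ((a'⁻¹ * (h j * b')) * u₂ * (b⁻¹ * ((h i)⁻¹ * s))) * (a⁻¹ * (g * s))⁻¹ := by
        have : a'⁻¹ * (g * s) = (a'⁻¹ * (h j * b')) * u₂ * (b⁻¹ * ((h i)⁻¹ * s)) := by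
          rw [h1]; group
        rw [← this]; group
      have h3 : a'⁻¹ * a ∈ V := by
        apply hU6
        rw [h2]
        exact mul_mem_pow (mul_mem_pow (mul_mem_pow (mem_pow_one hu₃) (mem_pow_one hu₂))
          (mem_pow_one hu₁)) (hUinv hu)
      have h4 : a' = a := hsep a' (hj.1.1 ha') a haD h3
      rw [← h4]; exact ha'
  -- classes of sets of markers
  have hclass : ∀ T ⊆ J, #{T' : Set (Set G) | T' ⊆ J ∧ Eqv U' (h '' T) (h '' T')} ≤ 2 ^ #D := by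
    intro T hT
    have hsub : {T' : Set (Set G) | T' ⊆ J ∧ Eqv U' (h '' T) (h '' T')} ⊆
        (fun r : Set (G × G) => (fun i : Set G => {a | ∃ s ∈ i, (s, a) ∈ r}) '' T) ''
          (𝒫 (D ×ˢ D)) := by
      rintro T' ⟨hT'J, g, hg1, hg2⟩
      refine ⟨{p : G × G | p.1 ∈ D ∧ p.2 ∈ D ∧ p.2⁻¹ * (g * p.1) ∈ U ^ 3}, ?_, ?_⟩
      · intro p hp; exact ⟨hp.1, hp.2.1⟩
      · ext j
        constructor
        · rintro ⟨i, hi, rfl⟩
          obtain ⟨_, ⟨j, hj, rfl⟩, hw⟩ := hg1 (h i) ⟨i, hi, rfl⟩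
          have := key i (hT hi) j (hT'J hj) g hw
          show {a | ∃ s ∈ i, (s, a) ∈
            {p : G × G | p.1 ∈ D ∧ p.2 ∈ D ∧ p.2⁻¹ * (g * p.1) ∈ U ^ 3}} ∈ T'
          rw [← this]; exact hj
        · intro hj
          obtain ⟨_, ⟨i, hi, rfl⟩, hw⟩ := hg2 (h j) ⟨j, hj, rfl⟩
          have hw' : (h j)⁻¹ * (g * h i) ∈ U' := by
            have := hU's _ hw
            have h2 : ((h i)⁻¹ * (g⁻¹ * h j))⁻¹ = (h j)⁻¹ * (g * h i) := by group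
            rwa [h2] at this
          exact ⟨i, hi, (key i (hT hi) j (hT'J hj) g hw').symm⟩
    calc #{T' : Set (Set G) | T' ⊆ J ∧ Eqv U' (h '' T) (h '' T')} ≤ _ :=
          Cardinal.mk_le_mk_of_subset hsub
      _ ≤ #(𝒫 (D ×ˢ D)) := Cardinal.mk_image_le
      _ = 2 ^ (#D * #D) := by rw [Cardinal.mk_powerset, Cardinal.mk_setProd]
      _ = 2 ^ #D := by rw [Cardinal.mul_eq_self hinf]
  obtain ⟨I₂, hI₂S, hI₂1, hI₂2⟩ := exists_max_indep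
    (fun T T' : Set (Set G) => Eqv U' (h '' T) (h '' T')) (fun a b => Eqv.symm)
    (fun T => Eqv.refl (mem_of_mem_nhds hU') _) {T : Set (Set G) | T ⊆ J ∧ T.Nonempty}
  have hI₂card : #D ≤ #I₂ := by
    by_contra hcon
    rw [not_le] at hcon
    have h1 : ℵ₀ ≤ (2 : Cardinal.{u}) ^ #D := hinf.trans (Cardinal.cantor _).le
    obtain ⟨T, hT, hTc⟩ := exists_large_fiber (κ := 2 ^ #D) h1 {T : Set (Set G) | T ⊆ J ∧ T.Nonempty}
      I₂ (fun T T' : Set (Set G) => Eqv U' (h '' T) (h '' T')) hI₂2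
      (hcon.le.trans (Cardinal.cantor _).le) (mk_nonempty_subsets h1 J hA₁)
    have h2 : #{T' : Set (Set G) | T' ∈ {T : Set (Set G) | T ⊆ J ∧ T.Nonempty} ∧
        Eqv U' (h '' T) (h '' T')} ≤ 2 ^ #D := by
      have h3 : {T' : Set (Set G) | T' ∈ {T : Set (Set G) | T ⊆ J ∧ T.Nonempty} ∧
          Eqv U' (h '' T) (h '' T')} ⊆
          {T' : Set (Set G) | T' ⊆ J ∧ Eqv U' (h '' T) (h '' T')} :=
        fun T' hT' => And.intro hT'.1.1 hT'.2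
      exact (Cardinal.mk_le_mk_of_subset h3).trans (hclass T (hI₂S hT).1)
    exact absurd (hTc.trans h2) (not_le.2 (Cardinal.cantor _))
  have hinj : Set.InjOn (fun T : Set (Set G) => h '' T) I₂ := by
    intro T hT T' hT' heq
    apply hI₂1 T hT T' hT'
    have heq' : h '' T = h '' T' := heq
    show Eqv U' (h '' T) (h '' T')
    rw [heq']
    exact Eqv.refl (mem_of_mem_nhds hU') _
  refine ⟨U', hU', fun x hx => hUC hx.2, (fun T : Set (Set G) => h '' T) '' I₂, ?_, ?_, ?_⟩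
  · rintro _ ⟨T, hT, rfl⟩
    refine ⟨(hI₂S hT).2.image h, ?_⟩
    rintro _ ⟨A, hA, rfl⟩
    exact hhC A ((hI₂S hT).1 hA)
  · rintro _ ⟨T, hT, rfl⟩ _ ⟨T', hT', rfl⟩ hEq
    rw [hI₂1 T hT T' hT' hEq]
  · rw [Cardinal.mk_image_eq_of_injOn _ _ hinj]
    exact hI₂card

end Pool.Agent.FBalancedU
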